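import Pool.Agent.H.MP_ce2c94_gt.h46.Prog

/-!
# The equations of the registers of a program
-/

namespace Pool.MP_ce2c94_gt.h28

open Pool.Agent.H.MP_ce2c94_gt.h46

/-- the operands of the instruction have numbers less than `i` -/
def wf (i : ℕ) : Ins → Bool
  | .tab _ _ _ => true
  | .cst _ => true
  | .add a b => Nat.blt a i && Nat.blt b i
  | .sub a b => Nat.blt a i && Nat.blt b i
  | .mul a b => Nat.blt a i && Nat.blt b i
  | .smul _ a => Nat.blt a i
  | .hlf _ a => Nat.blt a i
  | .rnd _ _ _ a => Nat.blt a i
  | .mulr a b _ _ _ => Nat.blt a i && Nat.blt b i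

theorem nth_append_lt {α : Type*} : ∀ (l l' : List α) (i : ℕ), i < l.length →
    nth (l ++ l') i = nth l i
  | [], _, i, h => absurd h (Nat.not_lt_zero i)
  | a :: l, l', 0, _ => rfl
  | a :: l, l', i + 1, h => by
    simp only [List.cons_append, nth]
    exact nth_append_lt l l' i (by simpa using h)

theorem nth_append_length {α : Type*} : ∀ (l : List α) (a : α) (l' : List α),
    nth (l ++ a :: l') l.length = some a
  | [], a, l' => rfl
  | b :: l, a, l' => by
    simp only [List.cons_append, List.length_cons, nth]
    exact nth_append_length l a l'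

theorem nth_split {α : Type*} : ∀ (l : List α) (i : ℕ) (a : α), nth l i = some a →
    ∃ l1 l2, l = l1 ++ a :: l2 ∧ l1.length = i
  | [], i, a, h => by simp [nth] at h
  | b :: l, 0, a, h => by
    simp only [nth, Option.some.injEq] at h
    exact ⟨[], l, by rw [h]; rfl, rfl⟩
  | b :: l, i + 1, a, h => by
    simp only [nth] at h
    obtain ⟨l1, l2, h1, h2⟩ := nth_split l i a h
    exact ⟨b :: l1, l2, by rw [h1]; rfl, by rw [List.length_cons, h2]⟩

section
variable {P : Par} {W : Type*} [NormedCommRing W] [NormedAlgebra ℝ W] (A : Alg P W)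
  (bs : List Base)

theorem vals_prefix : ∀ (is : List Ins) (vs : List W), ∃ l, vals A bs is vs = vs ++ l
  | [], vs => ⟨[], by simp [vals]⟩
  | i :: is, vs => by
    obtain ⟨l, hl⟩ := vals_prefix is (vs ++ [i.val A bs vs])
    exact ⟨i.val A bs vs :: l, by rw [vals, hl]; simp⟩

theorem vals_append : ∀ (is is' : List Ins) (vs : List W),
    vals A bs (is ++ is') vs = vals A bs is' (vals A bs is vs)
  | [], is', vs => rfl
  | i :: is, is', vs => by
    simp only [List.cons_append, vals]
    exact vals_append is is' _

theorem vals_length : ∀ (is : List Ins) (vs : List W),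
    (vals A bs is vs).length = vs.length + is.length
  | [], vs => rfl
  | i :: is, vs => by
    rw [vals, vals_length is]
    simp only [List.length_append, List.length_cons, List.length_nil]
    omega

theorem val_congr {i : ℕ} {ins : Ins} (hw : wf i ins = true) {vs vs' : List W}
    (h : ∀ j < i, nth vs j = nth vs' j) : ins.val A bs vs = ins.val A bs vs' := by
  cases ins <;> simp only [wf, Bool.and_eq_true, Nat.blt_eq] at hw <;> simp only [Ins.val]
  · rw [h _ hw.1, h _ hw.2]
  · rw [h _ hw.1, h _ hw.2]
  · rw [h _ hw.1, h _ hw.2]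
  · rw [h _ hw]
  · rw [h _ hw]
  · rw [h _ hw]
  · rw [h _ hw.1, h _ hw.2]

/-- the equation of the register `i` -/
theorem vals_eq {is : List Ins} {i : ℕ} {ins : Ins} (h : nth is i = some ins)
    (hw : wf i ins = true) :
    nth (vals A bs is []) i = some (ins.val A bs (vals A bs is [])) := by
  obtain ⟨l1, l2, h1, h2⟩ := nth_split is i ins h
  have h3 : (vals A bs l1 []).length = i := by rw [vals_length, h2]; simp
  obtain ⟨l, hl⟩ := vals_prefix A bs l2
    (vals A bs l1 [] ++ [ins.val A bs (vals A bs l1 [])])
  have h4 : vals A bs is [] = vals A bs l1 [] ++ (ins.val A bs (vals A bs l1 []) :: l) := by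
    rw [h1, vals_append]
    show vals A bs l2 _ = _
    rw [hl]
    simp
  have h5 : nth (vals A bs is []) i = some (ins.val A bs (vals A bs l1 [])) := by
    have h6 := nth_append_length (vals A bs l1 []) (ins.val A bs (vals A bs l1 [])) l
    rw [h3] at h6
    rw [h4]
    exact h6
  rw [h5]
  congr 1
  refine val_congr A bs hw fun j hj => ?_
  rw [h4]
  exact (nth_append_lt _ _ _ (by rw [h3]; exact hj)).symm

/-- the value of a register -/
noncomputable def rg (is : List Ins) (i : ℕ) : W := (nth (vals A bs is []) i).getD 0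

variable {A bs} {is : List Ins} {i : ℕ}

theorem rg_some (h : i < is.length) : nth (vals A bs is []) i = some (rg A bs is i) := by
  have : ∀ (l : List W) (i : ℕ), i < l.length → nth l i = some ((nth l i).getD 0) := by
    intro l
    induction l with
    | nil => intro i h; exact absurd h (Nat.not_lt_zero i)
    | cons a l ih =>
      intro i h
      rcases i with _ | i
      · rfl
      · exact ih i (by simpa using h)
  exact this _ i (by rw [vals_length]; simpa using h)

theorem rg_tab {n a c : ℕ} {B : Base} (h : nth is i = some (.tab n a c)) (hB : nth bs n = some B) :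
    rg A bs is i = tabW A B.w a c B.I B.J B.ε B.δ B.p B.N := by
  rw [rg, vals_eq A bs h rfl, Option.getD_some, Ins.val, hB]

theorem rg_cst {n : ℤ} (h : nth is i = some (.cst n)) : rg A bs is i = (n : W) := by
  rw [rg, vals_eq A bs h rfl, Option.getD_some, Ins.val]

theorem rg_add {a b : ℕ} (h : nth is i = some (.add a b)) (ha : a < i) (hb : b < i) :
    rg A bs is i = rg A bs is a + rg A bs is b := by
  rw [rg, vals_eq A bs h (by simp [wf, ha, hb]), Option.getD_some, Ins.val, rg, rg]

theorem rg_sub {a b : ℕ} (h : nth is i = some (.sub a b)) (ha : a < i) (hb : b < i) :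
    rg A bs is i = rg A bs is a - rg A bs is b := by
  rw [rg, vals_eq A bs h (by simp [wf, ha, hb]), Option.getD_some, Ins.val, rg, rg]

theorem rg_mul {a b : ℕ} (h : nth is i = some (.mul a b)) (ha : a < i) (hb : b < i) :
    rg A bs is i = rg A bs is a * rg A bs is b := by
  rw [rg, vals_eq A bs h (by simp [wf, ha, hb]), Option.getD_some, Ins.val, rg, rg]

theorem rg_mulr {a b t I J : ℕ} (h : nth is i = some (.mulr a b t I J)) (ha : a < i) (hb : b < i) :
    rg A bs is i = rg A bs is a * rg A bs is b := by
  rw [rg, vals_eq A bs h (by simp [wf, ha, hb]), Option.getD_some, Ins.val, rg, rg]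

theorem rg_smul {n : ℤ} {a : ℕ} (h : nth is i = some (.smul n a)) (ha : a < i) :
    rg A bs is i = n • rg A bs is a := by
  rw [rg, vals_eq A bs h (by simp [wf, ha]), Option.getD_some, Ins.val, rg]

theorem rg_hlf {t a : ℕ} (h : nth is i = some (.hlf t a)) (ha : a < i) :
    rg A bs is i = (((2 : ℝ) ^ t)⁻¹) • rg A bs is a := by
  rw [rg, vals_eq A bs h (by simp [wf, ha]), Option.getD_some, Ins.val, rg]

theorem rg_rnd {t I J a : ℕ} (h : nth is i = some (.rnd t I J a)) (ha : a < i) :
    rg A bs is i = rg A bs is a := by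
  rw [rg, vals_eq A bs h (by simp [wf, ha]), Option.getD_some, Ins.val, rg]

end

/-- the bounds of the final test for the registers -/
theorem check_rg {W : Type*} [NormedCommRing W] [NormedAlgebra ℝ W] {b W' h I0 J0 k : ℕ}
    (A : Alg (par b W' h I0 J0 k) W) {bs : List Base} {is : List Ins} {os : List Out}
    (hc : check b W' h I0 J0 k bs is os = true) {o : Out} (ho : o ∈ os) (hi : o.i < is.length) :
    ‖rg A bs is o.i‖ ≤ (o.n : ℝ) / 2 ^ o.q :=
  check_sound A hc o ho _ (rg_some hi)

end Pool.MP_ce2c94_gt.h28
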