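import Pool.Agent.H.MP_ce2c94_gt.h28.Lip
import Pool.Agent.H.MP_ce2c94_gt.h28.Vals

/-!
# The program of the embeddedness certificates
-/

namespace Pool.MP_ce2c94_gt.h28

open Pool.Agent.H.MP_ce2c94_gt.h46 D3

/-- data of the program: the tables of `P`, `Q'`, `Z'`, `e1 + e1'`, `e1 - e1'`, of the four
multipliers; frequency `N`, constants `S0`, `c = cn / 2^cd`, dropped precisions, box -/
structure EP where
  bP : Base
  bQ : Base
  bZ : Base
  bc : Base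
  bs : Base
  g1 : Base
  g2 : Base
  g3 : Base
  g4 : Base
  N : ℕ
  S0 : ℤ
  cn : ℤ
  cd : ℕ
  tP : ℕ
  tQ : ℕ
  tZ : ℕ
  u : ℕ
  I : ℕ
  J : ℕ
  IQ : ℕ
  JQ : ℕ
  IR : ℕ
  JR : ℕ

namespace EP

/-- the tables -/
def bases (E : EP) : List Base := [E.bP, E.bQ, E.bZ, E.bc, E.bs, E.g1, E.g2, E.g3, E.g4]

/-- the program -/
def prog (E : EP) : List Ins :=
  [
    -- 0
    .tab 0 0 0, .tab 0 1 0, .tab 0 0 1, .tab 1 0 0, .tab 1 1 0, .tab 1 0 1, .tab 2 0 0,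
    .tab 2 1 0, .tab 2 0 1, .rnd E.tP E.I E.J 0,
    -- 10
    .rnd E.tP E.I E.J 1, .rnd E.tP E.I E.J 2, .rnd E.tQ E.IQ E.JQ 3, .rnd E.tQ E.IQ E.JQ 4,
    .rnd E.tQ E.IQ E.JQ 5, .rnd E.tZ E.I E.J 6, .rnd E.tZ E.I E.J 7, .rnd E.tZ E.I E.J 8,
    .smul (E.N : ℤ) 11, .add 18 12,
    -- 20
    .smul (E.N : ℤ) 14, .add 20 9, .smul (E.N : ℤ) 17, .mulr 13 22 E.u E.I E.J,
    .mulr 16 21 E.u E.I E.J, .sub 23 24, .mulr 16 19 E.u E.I E.J, .mulr 10 22 E.u E.I E.J,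
    .sub 26 27, .mulr 10 21 E.u E.I E.J,
    -- 30
    .mulr 13 19 E.u E.I E.J, .sub 29 30, .mulr 9 9 E.u E.I E.J, .mulr 12 12 E.u E.IR E.JR,
    .sub 32 33, .mulr 9 21 E.u E.I E.J, .mulr 12 19 E.u E.I E.J, .sub 35 36, .cst 1, .cst E.S0,
    -- 40
    .sub 34 39, .mulr 9 25 E.u E.I E.J, .mulr 12 28 E.u E.I E.J, .add 41 42,
    .mulr 40 43 E.u E.I E.J, .smul 2 34, .mulr 45 15 E.u E.I E.J, .mulr 46 31 E.u E.I E.J,
    .add 44 47, .tab 3 0 0,
    -- 50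
    .tab 4 0 0, .mulr 40 49 1 E.I E.J, .smul E.cn 15, .hlf E.cd 52, .mulr 53 50 1 E.I E.J,
    .sub 51 54, .hlf 1 55, .tab 5 0 0, .tab 6 0 0, .tab 7 0 0,
    -- 60
    .tab 8 0 0, .mul 57 57, .mul 9 61, .sub 38 62, .mul 58 58, .mul 56 64, .sub 38 65,
    .mul 59 59, .mul 37 67, .sub 38 68,
    -- 70
    .mul 60 60, .mul 48 70, .add 38 71 ]

end EP

/-- the element of a base function -/
noncomputable def bW {P : Par} {W : Type*} [NormedCommRing W] [NormedAlgebra ℝ W] (A : Alg P W)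
    (B : Base) (a c : ℕ) : W :=
  tabW A B.w a c B.I B.J B.ε B.δ B.p B.N

namespace EP

variable {P : Par} {W : Type*} [NormedCommRing W] [NormedAlgebra ℝ W] (E : EP) (A : Alg P W)

/-- the registers -/
noncomputable def R (i : ℕ) : W := rg A E.bases E.prog i

theorem r_P : E.R A 0 = bW A E.bP 0 0 := rg_tab rfl rfl
theorem r_Pu : E.R A 1 = bW A E.bP 1 0 := rg_tab rfl rfl
theorem r_Pt : E.R A 2 = bW A E.bP 0 1 := rg_tab rfl rfl
theorem r_Q : E.R A 3 = bW A E.bQ 0 0 := rg_tab rfl rfl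
theorem r_Qu : E.R A 4 = bW A E.bQ 1 0 := rg_tab rfl rfl
theorem r_Qt : E.R A 5 = bW A E.bQ 0 1 := rg_tab rfl rfl
theorem r_Z : E.R A 6 = bW A E.bZ 0 0 := rg_tab rfl rfl
theorem r_Zu : E.R A 7 = bW A E.bZ 1 0 := rg_tab rfl rfl
theorem r_Zt : E.R A 8 = bW A E.bZ 0 1 := rg_tab rfl rfl
theorem r_rP : E.R A 9 = E.R A 0 := rg_rnd rfl (by decide)
theorem r_rPu : E.R A 10 = E.R A 1 := rg_rnd rfl (by decide)
theorem r_rPt : E.R A 11 = E.R A 2 := rg_rnd rfl (by decide)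
theorem r_rQ : E.R A 12 = E.R A 3 := rg_rnd rfl (by decide)
theorem r_rQu : E.R A 13 = E.R A 4 := rg_rnd rfl (by decide)
theorem r_rQt : E.R A 14 = E.R A 5 := rg_rnd rfl (by decide)
theorem r_rZ : E.R A 15 = E.R A 6 := rg_rnd rfl (by decide)
theorem r_rZu : E.R A 16 = E.R A 7 := rg_rnd rfl (by decide)
theorem r_rZt : E.R A 17 = E.R A 8 := rg_rnd rfl (by decide)
theorem r_NPt : E.R A 18 = (E.N : ℤ) • E.R A 11 := rg_smul rfl (by decide)
theorem r_a1 : E.R A 19 = E.R A 18 + E.R A 12 :=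
  rg_add rfl (by decide) (by decide)
theorem r_NQt : E.R A 20 = (E.N : ℤ) • E.R A 14 := rg_smul rfl (by decide)
theorem r_a2 : E.R A 21 = E.R A 20 + E.R A 9 :=
  rg_add rfl (by decide) (by decide)
theorem r_a3 : E.R A 22 = (E.N : ℤ) • E.R A 17 := rg_smul rfl (by decide)
theorem r_Qu3 : E.R A 23 = E.R A 13 * E.R A 22 :=
  rg_mulr rfl (by decide) (by decide)
theorem r_Zu2 : E.R A 24 = E.R A 16 * E.R A 21 :=
  rg_mulr rfl (by decide) (by decide)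
theorem r_n1 : E.R A 25 = E.R A 23 - E.R A 24 :=
  rg_sub rfl (by decide) (by decide)
theorem r_Zu1 : E.R A 26 = E.R A 16 * E.R A 19 :=
  rg_mulr rfl (by decide) (by decide)
theorem r_Pu3 : E.R A 27 = E.R A 10 * E.R A 22 :=
  rg_mulr rfl (by decide) (by decide)
theorem r_n2 : E.R A 28 = E.R A 26 - E.R A 27 :=
  rg_sub rfl (by decide) (by decide)
theorem r_Pu2 : E.R A 29 = E.R A 10 * E.R A 21 :=
  rg_mulr rfl (by decide) (by decide)
theorem r_Qu1 : E.R A 30 = E.R A 13 * E.R A 19 :=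
  rg_mulr rfl (by decide) (by decide)
theorem r_n3 : E.R A 31 = E.R A 29 - E.R A 30 :=
  rg_sub rfl (by decide) (by decide)
theorem r_PP : E.R A 32 = E.R A 9 * E.R A 9 :=
  rg_mulr rfl (by decide) (by decide)
theorem r_QQ : E.R A 33 = E.R A 12 * E.R A 12 :=
  rg_mulr rfl (by decide) (by decide)
theorem r_rho : E.R A 34 = E.R A 32 - E.R A 33 :=
  rg_sub rfl (by decide) (by decide)
theorem r_P2 : E.R A 35 = E.R A 9 * E.R A 21 :=
  rg_mulr rfl (by decide) (by decide)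
theorem r_Q1 : E.R A 36 = E.R A 12 * E.R A 19 :=
  rg_mulr rfl (by decide) (by decide)
theorem r_ang : E.R A 37 = E.R A 35 - E.R A 36 :=
  rg_sub rfl (by decide) (by decide)
theorem r_one : E.R A 38 = ((1 : ℤ) : W) := rg_cst rfl
theorem r_S0 : E.R A 39 = ((E.S0 : ℤ) : W) := rg_cst rfl
theorem r_rs : E.R A 40 = E.R A 34 - E.R A 39 :=
  rg_sub rfl (by decide) (by decide)
theorem r_Pn : E.R A 41 = E.R A 9 * E.R A 25 :=
  rg_mulr rfl (by decide) (by decide)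
theorem r_Qn : E.R A 42 = E.R A 12 * E.R A 28 :=
  rg_mulr rfl (by decide) (by decide)
theorem r_pn : E.R A 43 = E.R A 41 + E.R A 42 :=
  rg_add rfl (by decide) (by decide)
theorem r_j1 : E.R A 44 = E.R A 40 * E.R A 43 :=
  rg_mulr rfl (by decide) (by decide)
theorem r_rho2 : E.R A 45 = (2 : ℤ) • E.R A 34 := rg_smul rfl (by decide)
theorem r_rz : E.R A 46 = E.R A 45 * E.R A 15 :=
  rg_mulr rfl (by decide) (by decide)
theorem r_j2 : E.R A 47 = E.R A 46 * E.R A 31 :=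
  rg_mulr rfl (by decide) (by decide)
theorem r_mj : E.R A 48 = E.R A 44 + E.R A 47 :=
  rg_add rfl (by decide) (by decide)
theorem r_cs : E.R A 49 = bW A E.bc 0 0 := rg_tab rfl rfl
theorem r_sn : E.R A 50 = bW A E.bs 0 0 := rg_tab rfl rfl
theorem r_k1 : E.R A 51 = E.R A 40 * E.R A 49 :=
  rg_mulr rfl (by decide) (by decide)
theorem r_cz : E.R A 52 = E.cn • E.R A 15 := rg_smul rfl (by decide)
theorem r_czh : E.R A 53 = (((2 : ℝ) ^ E.cd)⁻¹) • E.R A 52 := rg_hlf rfl (by decide)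
theorem r_k2 : E.R A 54 = E.R A 53 * E.R A 50 :=
  rg_mulr rfl (by decide) (by decide)
theorem r_k3 : E.R A 55 = E.R A 51 - E.R A 54 :=
  rg_sub rfl (by decide) (by decide)
theorem r_cq : E.R A 56 = (((2 : ℝ) ^ 1)⁻¹) • E.R A 55 := rg_hlf rfl (by decide)
theorem r_g1 : E.R A 57 = bW A E.g1 0 0 := rg_tab rfl rfl
theorem r_g2 : E.R A 58 = bW A E.g2 0 0 := rg_tab rfl rfl
theorem r_g3 : E.R A 59 = bW A E.g3 0 0 := rg_tab rfl rfl
theorem r_g4 : E.R A 60 = bW A E.g4 0 0 := rg_tab rfl rfl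
theorem r_gg1 : E.R A 61 = E.R A 57 * E.R A 57 :=
  rg_mul rfl (by decide) (by decide)
theorem r_fg1 : E.R A 62 = E.R A 9 * E.R A 61 :=
  rg_mul rfl (by decide) (by decide)
theorem r_x1 : E.R A 63 = E.R A 38 - E.R A 62 :=
  rg_sub rfl (by decide) (by decide)
theorem r_gg2 : E.R A 64 = E.R A 58 * E.R A 58 :=
  rg_mul rfl (by decide) (by decide)
theorem r_fg2 : E.R A 65 = E.R A 56 * E.R A 64 :=
  rg_mul rfl (by decide) (by decide)
theorem r_x2 : E.R A 66 = E.R A 38 - E.R A 65 :=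
  rg_sub rfl (by decide) (by decide)
theorem r_gg3 : E.R A 67 = E.R A 59 * E.R A 59 :=
  rg_mul rfl (by decide) (by decide)
theorem r_fg3 : E.R A 68 = E.R A 37 * E.R A 67 :=
  rg_mul rfl (by decide) (by decide)
theorem r_x3 : E.R A 69 = E.R A 38 - E.R A 68 :=
  rg_sub rfl (by decide) (by decide)
theorem r_gg4 : E.R A 70 = E.R A 60 * E.R A 60 :=
  rg_mul rfl (by decide) (by decide)
theorem r_fg4 : E.R A 71 = E.R A 48 * E.R A 70 :=
  rg_mul rfl (by decide) (by decide)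
theorem r_x4 : E.R A 72 = E.R A 38 + E.R A 71 :=
  rg_add rfl (by decide) (by decide)

end EP

end Pool.MP_ce2c94_gt.h28
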