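import Pool.Agent.H.MP_ce2c94_gt.h28.Emb

/-!
# The registers of the embeddedness program are the quantities of `D3Bri`
-/

namespace Pool.MP_ce2c94_gt.h28

open Pool.Agent.H.MP_ce2c94_gt.h46 D3

namespace EP

section

variable {P : Par} {W : Type*} [NormedCommRing W] [NormedAlgebra ℝ W] (E : EP) (A : Alg P W)

/-- the first order jets of `h0` are given by the tables -/
structure Is (h0 : Hat W) : Prop where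
  P : h0.P.f = bW A E.bP 0 0
  Pu : h0.P.fu = bW A E.bP 1 0
  Pt : h0.P.ft = bW A E.bP 0 1
  Q : h0.Q.f = bW A E.bQ 0 0
  Qu : h0.Q.fu = bW A E.bQ 1 0
  Qt : h0.Q.ft = bW A E.bQ 0 1
  Z : h0.Z.f = bW A E.bZ 0 0
  Zu : h0.Z.fu = bW A E.bZ 1 0
  Zt : h0.Z.ft = bW A E.bZ 0 1

variable {E A} {h0 : Hat W} (H : E.Is A h0)

include H

theorem Is.P9 : E.R A 9 = h0.P.f := by rw [E.r_rP, E.r_P, H.P]
theorem Is.Pu10 : E.R A 10 = h0.P.fu := by rw [E.r_rPu, E.r_Pu, H.Pu]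
theorem Is.Pt11 : E.R A 11 = h0.P.ft := by rw [E.r_rPt, E.r_Pt, H.Pt]
theorem Is.Q12 : E.R A 12 = h0.Q.f := by rw [E.r_rQ, E.r_Q, H.Q]
theorem Is.Qu13 : E.R A 13 = h0.Q.fu := by rw [E.r_rQu, E.r_Qu, H.Qu]
theorem Is.Qt14 : E.R A 14 = h0.Q.ft := by rw [E.r_rQt, E.r_Qt, H.Qt]
theorem Is.Z15 : E.R A 15 = h0.Z.f := by rw [E.r_rZ, E.r_Z, H.Z]
theorem Is.Zu16 : E.R A 16 = h0.Z.fu := by rw [E.r_rZu, E.r_Zu, H.Zu]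
theorem Is.Zt17 : E.R A 17 = h0.Z.ft := by rw [E.r_rZt, E.r_Zt, H.Zt]

theorem Is.a1_19 : E.R A 19 = h0.a1 E.N := by
  rw [E.r_a1, E.r_NPt, H.Pt11, H.Q12, zsmul_eq_mul, Int.cast_natCast, Hat.a1]
theorem Is.a2_21 : E.R A 21 = h0.a2 E.N := by
  rw [E.r_a2, E.r_NQt, H.Qt14, H.P9, zsmul_eq_mul, Int.cast_natCast, Hat.a2]
theorem Is.a3_22 : E.R A 22 = h0.a3 E.N := by
  rw [E.r_a3, H.Zt17, zsmul_eq_mul, Int.cast_natCast, Hat.a3]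
theorem Is.n1_25 : E.R A 25 = h0.n1 E.N := by
  rw [E.r_n1, E.r_Qu3, E.r_Zu2, H.Qu13, H.a3_22, H.Zu16, H.a2_21, Hat.n1]
theorem Is.n2_28 : E.R A 28 = h0.n2 E.N := by
  rw [E.r_n2, E.r_Zu1, E.r_Pu3, H.Zu16, H.a1_19, H.Pu10, H.a3_22, Hat.n2]
theorem Is.n3_31 : E.R A 31 = h0.n3 E.N := by
  rw [E.r_n3, E.r_Pu2, E.r_Qu1, H.Pu10, H.a2_21, H.Qu13, H.a1_19, Hat.n3]
theorem Is.rho34 : E.R A 34 = h0.rho := by
  rw [E.r_rho, E.r_PP, E.r_QQ, H.P9, H.Q12, Hat.rho]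
theorem Is.ang37 : E.R A 37 = h0.ang E.N := by
  rw [E.r_ang, E.r_P2, E.r_Q1, H.P9, H.a2_21, H.Q12, H.a1_19, Hat.ang]

omit H in
theorem one38 : E.R A 38 = 1 := by rw [E.r_one, Int.cast_one]

theorem Is.rs40 : E.R A 40 = h0.rho - algebraMap ℝ W E.S0 := by
  rw [E.r_rs, H.rho34, E.r_S0, map_intCast]

theorem Is.mj48 : E.R A 48 = -h0.jac E.N E.S0 := by
  rw [E.r_mj, E.r_j1, E.r_pn, E.r_Pn, E.r_Qn, E.r_j2, E.r_rz, E.r_rho2, H.rs40, H.P9, H.n1_25,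
    H.Q12, H.n2_28, H.rho34, H.Z15, H.n3_31, zsmul_eq_mul, Hat.jac, neg_neg]
  norm_cast

theorem Is.cq56 {e1 e1' : W} (h1 : bW A E.bc 0 0 = e1 + e1') (h2 : bW A E.bs 0 0 = e1 - e1') :
    E.R A 56 = h0.cosq e1 e1' E.S0 (E.cn / 2 ^ E.cd) := by
  rw [E.r_cq, E.r_k3, E.r_k1, E.r_k2, E.r_czh, E.r_cz, H.rs40, E.r_cs, E.r_sn, H.Z15, h1, h2,
    Hat.cosq, Algebra.smul_def, pow_one, one_div]
  congr 2
  rw [← Int.cast_smul_eq_zsmul ℝ, smul_smul, Algebra.smul_def]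
  congr 3
  ring

theorem Is.x63 : E.R A 63 = 1 - h0.P.f * (bW A E.g1 0 0 * bW A E.g1 0 0) := by
  rw [E.r_x1, E.r_fg1, E.r_gg1, E.r_g1, H.P9, one38]
theorem Is.x66 {e1 e1' : W} (h1 : bW A E.bc 0 0 = e1 + e1') (h2 : bW A E.bs 0 0 = e1 - e1') :
    E.R A 66 = 1 - h0.cosq e1 e1' E.S0 (E.cn / 2 ^ E.cd) * (bW A E.g2 0 0 * bW A E.g2 0 0) := by
  rw [E.r_x2, E.r_fg2, E.r_gg2, E.r_g2, H.cq56 h1 h2, one38]
theorem Is.x69 : E.R A 69 = 1 - h0.ang E.N * (bW A E.g3 0 0 * bW A E.g3 0 0) := by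
  rw [E.r_x3, E.r_fg3, E.r_gg3, E.r_g3, H.ang37, one38]
theorem Is.x72 : E.R A 72 = 1 - h0.jac E.N E.S0 * (bW A E.g4 0 0 * bW A E.g4 0 0) := by
  rw [E.r_x4, E.r_fg4, E.r_gg4, E.r_g4, H.mj48, one38]
  ring

end

end EP

end Pool.MP_ce2c94_gt.h28
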