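import Pool.Agent.H.MP_ce2c94_gt.h28.Emb2
import Pool.Agent.H.MP_ce2c94_gt.D3Tab

/-!
# Positivity of the four quantities of a surface near the tables, from one kernel check
-/

namespace Pool.MP_ce2c94_gt.h28

open Pool.Agent.H.MP_ce2c94_gt.h46 D3 Pool.MP_ce2c94_gt.D3W AddMonoidAlgebra

/-- `‖1 - f₀ g g‖ ≤ r` with a real valued `g` gives positivity for all `f` near `f₀`. -/
theorem posW_of_cert {f f0 g : W} {r η G : ℝ} (hg : EvenW g) (h1 : ‖1 - f0 * (g * g)‖ ≤ r)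
    (h2 : ‖f - f0‖ ≤ η) (h3 : ‖g‖ ≤ G) (h4 : r + η * (G * G) < 1) : PosW f := by
  intro p
  have e1 : 1 - f * (g * g) = (1 - f0 * (g * g)) - (f - f0) * (g * g) := by ring
  have hG : 0 ≤ G := (norm_nonneg g).trans h3
  have hη : 0 ≤ η := (norm_nonneg _).trans h2
  have h5 : ‖1 - f * (g * g)‖ < 1 := by
    rw [e1]
    refine lt_of_le_of_lt ((norm_sub_le _ _).trans (add_le_add h1 ?_)) h4
    refine (norm_mul_le _ _).trans (mul_le_mul h2 ?_ (norm_nonneg _) hη)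
    exact (norm_mul_le _ _).trans (mul_le_mul h3 h3 (norm_nonneg _) hG)
  have h6 : ‖evp p (1 - f * (g * g))‖ < 1 := lt_of_le_of_lt (norm_evp_le p _) h5
  rw [map_sub, map_one, map_mul, map_mul] at h6
  have h7 : evp p g = (((evp p g).re : ℝ) : ℂ) := by
    apply Complex.ext
    · simp
    · simp [hg.im p]
  set x : ℝ := (evp p g).re with hx
  rw [h7] at h6
  have h8 : |(1 - evp p f * ((x : ℂ) * (x : ℂ))).re| < 1 :=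
    lt_of_le_of_lt (Complex.abs_re_le_norm _) h6
  have e2 : (1 - evp p f * ((x : ℂ) * (x : ℂ))).re = 1 - (evp p f).re * (x * x) := by
    rw [← Complex.ofReal_mul, Complex.sub_re, Complex.one_re, Complex.re_mul_ofReal]
  rw [e2, abs_lt] at h8
  have h9 : 0 < (evp p f).re * (x * x) := by linarith [h8.2]
  by_contra h
  push Not at h
  have : (evp p f).re * (x * x) ≤ 0 := mul_nonpos_of_nonpos_of_nonneg h (mul_self_nonneg x)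
  linarith

/-! ### the tables of cosine and sine -/

/-- the table of `e^{iu} + e^{-iu}` -/
def cosT : Base := ⟨4, 1, 0, 1, 1, 1, [0x98]⟩
/-- the table of `e^{iu} - e^{-iu}` -/
def sinT : Base := ⟨4, 1, 0, -1, 1, 1, [0x98]⟩

theorem iW_single (k : ℤ × ℤ) (a : ℤ) : iW (single k a) = (a : ℝ) • e k := by
  change toW (iL (single k a)) = _
  rw [← toW_single]
  congr 1
  ext l
  rw [coeff_iL, coeff_single, coeff_single, Finsupp.single_apply, Finsupp.single_apply]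
  split_ifs <;> simp

theorem qf0 : qf [0x98] 4 2 0 0 = 0 := by decide
theorem qf1 : qf [0x98] 4 2 1 0 = 1 := by decide

theorem iW_quad0 (ε δ : ℤ) (i j : ℕ) : iW (quad ε δ i j 0) = 0 := by
  rw [quad]
  simp

theorem iW_quad1 (ε : ℤ) : iW (quad ε 1 1 0 1) = (2 : ℝ) • (e (1, 0) + (ε : ℝ) • e (-1, 0)) := by
  rw [quad, map_add, map_add, map_add, iW_single, iW_single, iW_single, iW_single]
  push_cast
  rw [neg_zero]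
  module

theorem tab1 (ε : ℤ) : iW (DD 0 0 (tab 1 0 ε 1 (qf [0x98] 4 2))) =
    (2 : ℝ) • (e (1, 0) + (ε : ℝ) • e (-1, 0)) := by
  have h : ∀ x : T, DD 0 0 x = x := fun x => rfl
  rw [h, tab, Finset.sum_range_one, Finset.sum_range_succ, Finset.sum_range_one, qf0, qf1,
    map_add, iW_quad0, iW_quad1, zero_add]

theorem cosT_eq : baseW cosT 0 0 = eu + eu' := by
  have := tab1 1
  show (((2 : ℝ) ^ 1)⁻¹) • iW (DD 0 0 (tab 1 0 1 1 (qf [0x98] 4 2))) = _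
  rw [this, smul_smul, eu, eu']
  norm_num

theorem sinT_eq : baseW sinT 0 0 = eu - eu' := by
  have := tab1 (-1)
  show (((2 : ℝ) ^ 1)⁻¹) • iW (DD 0 0 (tab 1 0 (-1) 1 (qf [0x98] 4 2))) = _
  rw [this, smul_smul, eu, eu']
  norm_num
  abel

/-! ### the final statement -/

/-- the requested bounds, in units of `1/256` -/
structure ON where
  P : ℕ
  Pu : ℕ
  Pt : ℕ
  Q : ℕ
  Qu : ℕ
  Qt : ℕ
  Z : ℕ
  Zu : ℕ
  Zt : ℕ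
  m1 : ℕ
  m2 : ℕ
  m3 : ℕ
  m4 : ℕ
  d1 : ℕ
  d2 : ℕ
  d3 : ℕ
  d4 : ℕ

namespace ON

/-- the tests -/
def outs (O : ON) : List Out :=
  [⟨9, O.P, 8⟩, ⟨10, O.Pu, 8⟩, ⟨11, O.Pt, 8⟩, ⟨12, O.Q, 8⟩, ⟨13, O.Qu, 8⟩, ⟨14, O.Qt, 8⟩,
   ⟨15, O.Z, 8⟩, ⟨16, O.Zu, 8⟩, ⟨17, O.Zt, 8⟩, ⟨57, O.m1, 8⟩, ⟨58, O.m2, 8⟩, ⟨59, O.m3, 8⟩,
   ⟨60, O.m4, 8⟩, ⟨63, O.d1, 8⟩, ⟨66, O.d2, 8⟩, ⟨69, O.d3, 8⟩, ⟨72, O.d4, 8⟩]

/-- the pairs of the jets, for distances at most `δ` -/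
noncomputable def bd (O : ON) (δ : ℝ) : Bd where
  P := (O.P / 2 ^ 8, δ)
  Pu := (O.Pu / 2 ^ 8, δ)
  Pt := (O.Pt / 2 ^ 8, δ)
  Q := (O.Q / 2 ^ 8, δ)
  Qu := (O.Qu / 2 ^ 8, δ)
  Qt := (O.Qt / 2 ^ 8, δ)
  Z := (O.Z / 2 ^ 8, δ)
  Zu := (O.Zu / 2 ^ 8, δ)
  Zt := (O.Zt / 2 ^ 8, δ)

end ON

/-- the first order jets of `h` are near those of `h0` -/
structure Near (h h0 : Hat W) (δ : ℝ) : Prop where
  P : ‖h.P.f - h0.P.f‖ ≤ δ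
  Pu : ‖h.P.fu - h0.P.fu‖ ≤ δ
  Pt : ‖h.P.ft - h0.P.ft‖ ≤ δ
  Q : ‖h.Q.f - h0.Q.f‖ ≤ δ
  Qu : ‖h.Q.fu - h0.Q.fu‖ ≤ δ
  Qt : ‖h.Q.ft - h0.Q.ft‖ ≤ δ
  Z : ‖h.Z.f - h0.Z.f‖ ≤ δ
  Zu : ‖h.Z.fu - h0.Z.fu‖ ≤ δ
  Zt : ‖h.Z.ft - h0.Z.ft‖ ≤ δ

theorem par_I0 (b W h I0 J0 k : ℕ) : (par b W h I0 J0 k).I0 = I0 := by
  simp only [par, mkPar, forceN_eq, id]
theorem par_J0 (b W h I0 J0 k : ℕ) : (par b W h I0 J0 k).J0 = J0 := by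
  simp only [par, mkPar, forceN_eq, id]
theorem par_k (b W h I0 J0 k : ℕ) : (par b W h I0 J0 k).k = k := by
  simp only [par, mkPar, forceN_eq, id]

theorem par_alg {b W h I0 J0 k : ℕ} (hk : (I0 + J0) * 2 ^ (k + 1) ≤ 2 ^ 20) :
    nu ^ ((par b W h I0 J0 k).I0 + (par b W h I0 J0 k).J0) ≤
      1 + 1 / 2 ^ (par b W h I0 J0 k).k := by
  rw [par_I0, par_J0, par_k]
  exact nu_pow_le hk

theorem norm_eu (E : ℝ) (hE : 2.001 ≤ E) : ‖eu + eu'‖ ≤ E ∧ ‖eu - eu'‖ ≤ E := by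
  have h1 : ‖eu‖ ≤ 1.0005 := by
    rw [eu, norm_e]
    show nu ^ (1 + 0) ≤ _
    unfold nu
    norm_num
  have h2 : ‖eu'‖ ≤ 1.0005 := by
    rw [eu', norm_e]
    show nu ^ (1 + 0) ≤ _
    unfold nu
    norm_num
  exact ⟨(norm_add_le _ _).trans (by linarith), (norm_sub_le _ _).trans (by linarith)⟩

/-- the four positivity facts -/
structure Pos4 (h : Hat W) (N : ℕ) (S0 c : ℝ) : Prop where
  P : PosW h.P.f
  cosq : PosW (h.cosq eu eu' S0 c)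
  ang : PosW (h.ang N)
  jac : PosW (h.jac N S0)

/-- MAIN: one kernel check gives the four positivity facts for all surfaces near the tables. -/
theorem pos4 (E : EP) (O : ON) {b W' h I0 J0 k : ℕ} (hk : (I0 + J0) * 2 ^ (k + 1) ≤ 2 ^ 20)
    (hc : check b W' h I0 J0 k E.bases E.prog O.outs = true)
    (hcos : E.bc = cosT) (hsin : E.bs = sinT)
    (hg1 : E.g1.ε = 1 ∧ E.g1.δ = 1) (hg2 : E.g2.ε = 1 ∧ E.g2.δ = 1)
    (hg3 : E.g3.ε = 1 ∧ E.g3.δ = 1) (hg4 : E.g4.ε = 1 ∧ E.g4.δ = 1) {δ : ℝ}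
    (h1 : (O.d1 : ℝ) / 2 ^ 8 + (O.bd δ).P.2 * ((O.m1 / 2 ^ 8 : ℝ) * (O.m1 / 2 ^ 8)) < 1)
    (h2 : (O.d2 : ℝ) / 2 ^ 8 + ((O.bd δ).cosq E.S0 (E.cn / 2 ^ E.cd) 2.001).2 *
      ((O.m2 / 2 ^ 8 : ℝ) * (O.m2 / 2 ^ 8)) < 1)
    (h3 : (O.d3 : ℝ) / 2 ^ 8 + ((O.bd δ).ang E.N).2 * ((O.m3 / 2 ^ 8 : ℝ) * (O.m3 / 2 ^ 8)) < 1)
    (h4 : (O.d4 : ℝ) / 2 ^ 8 + ((O.bd δ).jac E.N E.S0).2 *
      ((O.m4 / 2 ^ 8 : ℝ) * (O.m4 / 2 ^ 8)) < 1)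
    {H : Hat W} (hn : Near H (tabHat E.bP E.bQ E.bZ) δ) :
    Pos4 H E.N E.S0 (E.cn / 2 ^ E.cd) := by
  set A := algW (par b W' h I0 J0 k) (par_alg hk) with hA
  have hb : ∀ (B : Base) (a c : ℕ), bW A B a c = baseW B a c := fun _ _ _ => rfl
  have HI : E.Is A (tabHat E.bP E.bQ E.bZ) :=
    ⟨rfl, rfl, rfl, rfl, rfl, rfl, rfl, rfl, rfl⟩
  have ho : ∀ o ∈ O.outs, o.i < 73 → ‖E.R A o.i‖ ≤ (o.n : ℝ) / 2 ^ o.q :=
    fun o hm hi => check_rg A hc hm hi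
  have c1 : bW A E.bc 0 0 = eu + eu' := by rw [hb, hcos, cosT_eq]
  have c2 : bW A E.bs 0 0 = eu - eu' := by rw [hb, hsin, sinT_eq]
  have ev : ∀ B : Base, B.ε = 1 ∧ B.δ = 1 → EvenW (bW A B 0 0) := fun B hB =>
    evenW_base B (by rw [hB.1]; norm_num) (by rw [hB.2]; norm_num)
      (by rw [hB.1, hB.2]; norm_num)
  have NH : NHat H (tabHat E.bP E.bQ E.bZ) (O.bd δ) :=
    ⟨⟨by have := ho ⟨9, O.P, 8⟩ (by simp [ON.outs]) (by norm_num); rwa [HI.P9] at this, hn.P⟩,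
     ⟨by have := ho ⟨10, O.Pu, 8⟩ (by simp [ON.outs]) (by norm_num); rwa [HI.Pu10] at this, hn.Pu⟩,
     ⟨by have := ho ⟨11, O.Pt, 8⟩ (by simp [ON.outs]) (by norm_num); rwa [HI.Pt11] at this, hn.Pt⟩,
     ⟨by have := ho ⟨12, O.Q, 8⟩ (by simp [ON.outs]) (by norm_num); rwa [HI.Q12] at this, hn.Q⟩,
     ⟨by have := ho ⟨13, O.Qu, 8⟩ (by simp [ON.outs]) (by norm_num); rwa [HI.Qu13] at this, hn.Qu⟩,
     ⟨by have := ho ⟨14, O.Qt, 8⟩ (by simp [ON.outs]) (by norm_num); rwa [HI.Qt14] at this, hn.Qt⟩,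
     ⟨by have := ho ⟨15, O.Z, 8⟩ (by simp [ON.outs]) (by norm_num); rwa [HI.Z15] at this, hn.Z⟩,
     ⟨by have := ho ⟨16, O.Zu, 8⟩ (by simp [ON.outs]) (by norm_num); rwa [HI.Zu16] at this, hn.Zu⟩,
     ⟨by have := ho ⟨17, O.Zt, 8⟩ (by simp [ON.outs]) (by norm_num); rwa [HI.Zt17] at this, hn.Zt⟩⟩
  have k1 := ho ⟨57, O.m1, 8⟩ (by simp [ON.outs]) (by norm_num)
  have k2 := ho ⟨58, O.m2, 8⟩ (by simp [ON.outs]) (by norm_num)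
  have k3 := ho ⟨59, O.m3, 8⟩ (by simp [ON.outs]) (by norm_num)
  have k4 := ho ⟨60, O.m4, 8⟩ (by simp [ON.outs]) (by norm_num)
  have l1 := ho ⟨63, O.d1, 8⟩ (by simp [ON.outs]) (by norm_num)
  have l2 := ho ⟨66, O.d2, 8⟩ (by simp [ON.outs]) (by norm_num)
  have l3 := ho ⟨69, O.d3, 8⟩ (by simp [ON.outs]) (by norm_num)
  have l4 := ho ⟨72, O.d4, 8⟩ (by simp [ON.outs]) (by norm_num)
  simp only at k1 k2 k3 k4 l1 l2 l3 l4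
  rw [E.r_g1] at k1
  rw [E.r_g2] at k2
  rw [E.r_g3] at k3
  rw [E.r_g4] at k4
  rw [HI.x63] at l1
  rw [HI.x66 c1 c2] at l2
  rw [HI.x69] at l3
  rw [HI.x72] at l4
  obtain ⟨e1, e2⟩ := norm_eu 2.001 le_rfl
  exact ⟨posW_of_cert (ev _ hg1) l1 NH.P.d k1 h1,
    posW_of_cert (ev _ hg2) l2 (NH.cosq E.S0 (E.cn / 2 ^ E.cd) e1 e2).d k2 h2,
    posW_of_cert (ev _ hg3) l3 (NH.ang E.N).d k3 h3,
    posW_of_cert (ev _ hg4) l4 (NH.jac E.N E.S0).d k4 h4⟩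

end Pool.MP_ce2c94_gt.h28
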