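import Pool.Agent.H.MP_ce2c94_gt.h28.Emb3
import Pool.Agent.H.MP_ce2c94_gt.D3.Main

/-!
# Positivity for the perturbed surfaces `C + φ V`
-/

namespace Pool.MP_ce2c94_gt.h28

open Pool.Agent.H.MP_ce2c94_gt.h46 D3 Pool.MP_ce2c94_gt.D3W Pool.MP_ce2c94_gt.D3E

/-- norms of the first order jets of the direction, in units of `1/256` -/
structure VN where
  P : ℕ
  Pu : ℕ
  Pt : ℕ
  Q : ℕ
  Qu : ℕ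
  Qt : ℕ
  Z : ℕ
  Zu : ℕ
  Zt : ℕ

/-- the program of the norms of the direction -/
def progV : List Ins :=
  [.tab 0 0 0, .tab 0 1 0, .tab 0 0 1, .tab 1 0 0, .tab 1 1 0, .tab 1 0 1,
    .tab 2 0 0, .tab 2 1 0, .tab 2 0 1]

/-- the tests -/
def VN.outs (O : VN) : List Out :=
  [⟨0, O.P, 8⟩, ⟨1, O.Pu, 8⟩, ⟨2, O.Pt, 8⟩, ⟨3, O.Q, 8⟩, ⟨4, O.Qu, 8⟩, ⟨5, O.Qt, 8⟩,
   ⟨6, O.Z, 8⟩, ⟨7, O.Zu, 8⟩, ⟨8, O.Zt, 8⟩]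

/-- the bounds of the direction -/
structure VB (V : Hat W) (O : VN) : Prop where
  P : ‖V.P.f‖ ≤ (O.P : ℝ) / 2 ^ 8
  Pu : ‖V.P.fu‖ ≤ (O.Pu : ℝ) / 2 ^ 8
  Pt : ‖V.P.ft‖ ≤ (O.Pt : ℝ) / 2 ^ 8
  Q : ‖V.Q.f‖ ≤ (O.Q : ℝ) / 2 ^ 8
  Qu : ‖V.Q.fu‖ ≤ (O.Qu : ℝ) / 2 ^ 8
  Qt : ‖V.Q.ft‖ ≤ (O.Qt : ℝ) / 2 ^ 8
  Z : ‖V.Z.f‖ ≤ (O.Z : ℝ) / 2 ^ 8
  Zu : ‖V.Z.fu‖ ≤ (O.Zu : ℝ) / 2 ^ 8
  Zt : ‖V.Z.ft‖ ≤ (O.Zt : ℝ) / 2 ^ 8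

theorem vb_of_check {vP vQ vZ : Base} (O : VN) {b W' h I0 J0 k : ℕ}
    (hk : (I0 + J0) * 2 ^ (k + 1) ≤ 2 ^ 20)
    (hc : check b W' h I0 J0 k [vP, vQ, vZ] progV O.outs = true) :
    VB (tabHat vP vQ vZ) O := by
  set A := algW (par b W' h I0 J0 k) (par_alg hk) with hA
  have ho : ∀ o ∈ O.outs, o.i < 9 → ‖rg A [vP, vQ, vZ] progV o.i‖ ≤ (o.n : ℝ) / 2 ^ o.q :=
    fun o hm hi => check_rg A hc hm hi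
  have k0 := ho ⟨0, O.P, 8⟩ (by simp [VN.outs]) (by norm_num)
  have k1 := ho ⟨1, O.Pu, 8⟩ (by simp [VN.outs]) (by norm_num)
  have k2 := ho ⟨2, O.Pt, 8⟩ (by simp [VN.outs]) (by norm_num)
  have k3 := ho ⟨3, O.Q, 8⟩ (by simp [VN.outs]) (by norm_num)
  have k4 := ho ⟨4, O.Qu, 8⟩ (by simp [VN.outs]) (by norm_num)
  have k5 := ho ⟨5, O.Qt, 8⟩ (by simp [VN.outs]) (by norm_num)
  have k6 := ho ⟨6, O.Z, 8⟩ (by simp [VN.outs]) (by norm_num)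
  have k7 := ho ⟨7, O.Zu, 8⟩ (by simp [VN.outs]) (by norm_num)
  have k8 := ho ⟨8, O.Zt, 8⟩ (by simp [VN.outs]) (by norm_num)
  simp only at k0 k1 k2 k3 k4 k5 k6 k7 k8
  rw [rg_tab (B := vP) (a := 0) (c := 0) (n := 0) rfl rfl] at k0
  rw [rg_tab (B := vP) (a := 1) (c := 0) (n := 0) rfl rfl] at k1
  rw [rg_tab (B := vP) (a := 0) (c := 1) (n := 0) rfl rfl] at k2
  rw [rg_tab (B := vQ) (a := 0) (c := 0) (n := 1) rfl rfl] at k3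
  rw [rg_tab (B := vQ) (a := 1) (c := 0) (n := 1) rfl rfl] at k4
  rw [rg_tab (B := vQ) (a := 0) (c := 1) (n := 1) rfl rfl] at k5
  rw [rg_tab (B := vZ) (a := 0) (c := 0) (n := 2) rfl rfl] at k6
  rw [rg_tab (B := vZ) (a := 1) (c := 0) (n := 2) rfl rfl] at k7
  rw [rg_tab (B := vZ) (a := 0) (c := 1) (n := 2) rfl rfl] at k8
  exact ⟨k0, k1, k2, k3, k4, k5, k6, k7, k8⟩

/-- the numerical conditions: `r0, r1, r2` bound the jets of `φ` -/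
structure Sm (O : VN) (r0 r1 r2 δ : ℝ) : Prop where
  P : r0 * (O.P / 2 ^ 8) ≤ δ
  Q : r0 * (O.Q / 2 ^ 8) ≤ δ
  Z : r0 * (O.Z / 2 ^ 8) ≤ δ
  Pu : r1 * (O.P / 2 ^ 8) + r0 * (O.Pu / 2 ^ 8) ≤ δ
  Qu : r1 * (O.Q / 2 ^ 8) + r0 * (O.Qu / 2 ^ 8) ≤ δ
  Zu : r1 * (O.Z / 2 ^ 8) + r0 * (O.Zu / 2 ^ 8) ≤ δ
  Pt : r2 * (O.P / 2 ^ 8) + r0 * (O.Pt / 2 ^ 8) ≤ δ
  Qt : r2 * (O.Q / 2 ^ 8) + r0 * (O.Qt / 2 ^ 8) ≤ δ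
  Zt : r2 * (O.Z / 2 ^ 8) + r0 * (O.Zt / 2 ^ 8) ≤ δ

theorem near_pert {C V : Hat W} {O : VN} (hV : VB V O) {φ : HJet W} {r0 r1 r2 δ : ℝ}
    (h0 : ‖φ.f‖ ≤ r0) (h1 : ‖φ.fu‖ ≤ r1) (h2 : ‖φ.ft‖ ≤ r2) (hs : Sm O r0 r1 r2 δ) :
    Near (C.pert V φ) C δ := by
  have z0 : 0 ≤ r0 := (norm_nonneg _).trans h0
  have z1 : 0 ≤ r1 := (norm_nonneg _).trans h1
  have z2 : 0 ≤ r2 := (norm_nonneg _).trans h2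
  have key : ∀ {x y : W} {r s : ℝ}, 0 ≤ r → ‖x‖ ≤ r → ‖y‖ ≤ s → ‖x * y‖ ≤ r * s :=
    fun hr hx hy => (norm_mul_le _ _).trans (mul_le_mul hx hy (norm_nonneg _) hr)
  have e1 : ∀ c x : W, c + x - c = x := fun c x => by ring
  refine ⟨?_, ?_, ?_, ?_, ?_, ?_, ?_, ?_, ?_⟩
  · show ‖C.P.f + φ.f * V.P.f - C.P.f‖ ≤ δ
    rw [e1]
    exact (key z0 h0 hV.P).trans hs.P
  · show ‖C.P.fu + (φ.fu * V.P.f + φ.f * V.P.fu) - C.P.fu‖ ≤ δ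
    rw [e1]
    exact (norm_add_le _ _).trans ((add_le_add (key z1 h1 hV.P) (key z0 h0 hV.Pu)).trans hs.Pu)
  · show ‖C.P.ft + (φ.ft * V.P.f + φ.f * V.P.ft) - C.P.ft‖ ≤ δ
    rw [e1]
    exact (norm_add_le _ _).trans ((add_le_add (key z2 h2 hV.P) (key z0 h0 hV.Pt)).trans hs.Pt)
  · show ‖C.Q.f + φ.f * V.Q.f - C.Q.f‖ ≤ δ
    rw [e1]
    exact (key z0 h0 hV.Q).trans hs.Q
  · show ‖C.Q.fu + (φ.fu * V.Q.f + φ.f * V.Q.fu) - C.Q.fu‖ ≤ δ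
    rw [e1]
    exact (norm_add_le _ _).trans ((add_le_add (key z1 h1 hV.Q) (key z0 h0 hV.Qu)).trans hs.Qu)
  · show ‖C.Q.ft + (φ.ft * V.Q.f + φ.f * V.Q.ft) - C.Q.ft‖ ≤ δ
    rw [e1]
    exact (norm_add_le _ _).trans ((add_le_add (key z2 h2 hV.Q) (key z0 h0 hV.Qt)).trans hs.Qt)
  · show ‖C.Z.f + φ.f * V.Z.f - C.Z.f‖ ≤ δ
    rw [e1]
    exact (key z0 h0 hV.Z).trans hs.Z
  · show ‖C.Z.fu + (φ.fu * V.Z.f + φ.f * V.Z.fu) - C.Z.fu‖ ≤ δ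
    rw [e1]
    exact (norm_add_le _ _).trans ((add_le_add (key z1 h1 hV.Z) (key z0 h0 hV.Zu)).trans hs.Zu)
  · show ‖C.Z.ft + (φ.ft * V.Z.f + φ.f * V.Z.ft) - C.Z.ft‖ ≤ δ
    rw [e1]
    exact (norm_add_le _ _).trans ((add_le_add (key z2 h2 hV.Z) (key z0 h0 hV.Zt)).trans hs.Zt)

/-- the jets of the unknown -/
theorem phiP_bounds {P : Prm} (hP : P.Ok) {y : W} {ρ : ℝ} (hy : ‖y‖ ≤ ρ) :
    ‖(phiP P y).f‖ ≤ P.d0 * ρ ∧ ‖(phiP P y).fu‖ ≤ P.d1 * ρ ∧ ‖(phiP P y).ft‖ ≤ P.d2 * ρ := by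
  have d0 : (0 : ℝ) ≤ P.d0 := by exact_mod_cast hP.d0
  have d1 : (0 : ℝ) ≤ P.d1 := by exact_mod_cast hP.d1
  have d2 : (0 : ℝ) ≤ P.d2 := by exact_mod_cast hP.d2
  exact ⟨(hP.norm_D 0 y).trans (mul_le_mul_of_nonneg_left hy d0),
    (hP.norm_D 1 y).trans (mul_le_mul_of_nonneg_left hy d1),
    (hP.norm_D 2 y).trans (mul_le_mul_of_nonneg_left hy d2)⟩

/-- FINAL FORM: positivity for the perturbed surfaces. -/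
theorem pos_of_small {E : EP} {V : Hat W} {O : VN} {δ : ℝ} {c : ℝ}
    (hpos : ∀ H : Hat W, Near H (tabHat E.bP E.bQ E.bZ) δ → Pos4 H E.N E.S0 c)
    (hc : 0 < c) (hV : VB V O) {P : Prm} (hP : P.Ok) {y : W} {ρ : ℝ} (hy : ‖y‖ ≤ ρ)
    (hs : Sm O (P.d0 * ρ) (P.d1 * ρ) (P.d2 * ρ) δ) :
    Pos E.N E.S0 c ((tabHat E.bP E.bQ E.bZ).pert V (phiP P y)) := by
  obtain ⟨b0, b1, b2⟩ := phiP_bounds hP hy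
  obtain ⟨p1, p2, p3, p4⟩ := hpos _ (near_pert hV b0 b1 b2 hs)
  exact ⟨hc, p1, p2, p3, p4⟩

end Pool.MP_ce2c94_gt.h28
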