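import Pool.Agent.H.MP_ce2c94_gt.h28.Emb4
import Pool.Agent.H.MP_ce2c94_gt.ck.AData

/-!
# Embeddedness certificates, data AD
-/

namespace Pool.MP_ce2c94_gt.h28

open Pool.Agent.H.MP_ce2c94_gt.h46 D3 Pool.MP_ce2c94_gt.D3W Pool.MP_ce2c94_gt.D3E

/-- multiplier 1 -/
def gA1 : Base :=
  ⟨17, 5, 0, 1, 1, 16, [0x1ff94ffa57f6f4005dc53f426a]⟩

/-- multiplier 2 -/
def gA2 : Base :=
  ⟨16, 8, 0, 1, 1, 16, [0x7ff77fec7fce7f7f7edc7da47da27b35a22e]⟩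

/-- multiplier 3 -/
def gA3 : Base :=
  ⟨17, 6, 0, 1, 1, 16, [0x3ff9dff8effe17ee2c1dd185fd4bad]⟩

/-- multiplier 4 -/
def gA4 : Base :=
  ⟨17, 10, 0, 1, 1, 16, [0x3fffdfffefffe7ffe3ffe5ffc100337fa54281d7c133c89]⟩

/-- the data of the program -/
def EA : EP where
  bP := AD.cP
  bQ := AD.cQ
  bZ := AD.cZ
  bc := cosT
  bs := sinT
  g1 := gA1
  g2 := gA2
  g3 := gA3
  g4 := gA4
  N := 10
  S0 := 3
  cn := 5
  cd := 0
  tP := 10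
  tQ := 10
  tZ := 10
  u := 40
  I := 50
  J := 0
  IQ := 0
  JQ := 0
  IR := 0
  JR := 0

/-- the requested bounds -/
def OA : ON :=
  ⟨849, 996, 1, 1, 1, 1, 375, 784, 1, 391, 183, 588, 551, 5, 2, 4, 2⟩

/-- the bounds of the direction -/
def VA : VN :=
  ⟨1097, 3950, 1, 1, 1, 1, 1161, 4182, 1⟩

theorem checkA : check 112 201 12 100 0 12 EA.bases EA.prog OA.outs = true := by
  decide +kernel

theorem checkVA : check 80 61 8 30 0 12 [AD.vP, AD.vQ, AD.vZ] progV VA.outs = true := by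
  decide +kernel

/-- all the surfaces near the tables are embedded -/
theorem nearA {H : Hat W} (hn : Near H (tabHat AD.cP AD.cQ AD.cZ) (1 / 2 ^ 16)) :
    Pos4 H 10 3 5 := by
  have h := pos4 EA OA (by norm_num) checkA rfl rfl ⟨rfl, rfl⟩ ⟨rfl, rfl⟩ ⟨rfl, rfl⟩ ⟨rfl, rfl⟩
    (δ := 1 / 2 ^ 16)
    (by norm_num [ON.bd, OA, Bd.cosq, Bd.rho, pm, pa, ps, pt])
    (by norm_num [ON.bd, OA, EA, Bd.cosq, Bd.rho, pm, pa, ps, pt])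
    (by norm_num [ON.bd, OA, EA, Bd.ang, Bd.a1, Bd.a2, pm, pa, ps, pt])
    (by norm_num [ON.bd, OA, EA, Bd.jac, Bd.rho, Bd.n1, Bd.n2, Bd.n3, Bd.a1, Bd.a2, Bd.a3,
      pm, pa, ps, pt]) (H := H) hn
  simpa [EA] using h

theorem vbA : VB (tabHat AD.vP AD.vQ AD.vZ) VA :=
  vb_of_check VA (by norm_num) checkVA

/-- FINAL: positivity for the perturbed surfaces. -/
theorem posA {P : Prm} (hP : P.Ok) {y : W} {ρ : ℝ} (hy : ‖y‖ ≤ ρ)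
    (hs : Sm VA (P.d0 * ρ) (P.d1 * ρ) (P.d2 * ρ) (1 / 2 ^ 16)) :
    Pos 10 3 5 ((tabHat AD.cP AD.cQ AD.cZ).pert (tabHat AD.vP AD.vQ AD.vZ) (phiP P y)) := by
  obtain ⟨b0, b1, b2⟩ := phiP_bounds hP hy
  obtain ⟨p1, p2, p3, p4⟩ := nearA (near_pert vbA b0 b1 b2 hs)
  exact ⟨by norm_num, p1, p2, p3, p4⟩

end Pool.MP_ce2c94_gt.h28
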