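import Pool.Agent.H.MP_ce2c94_gt.h28.Emb4
import Pool.Agent.H.MP_ce2c94_gt.ck.DData

/-!
# Embeddedness certificates, data DD
-/

namespace Pool.MP_ce2c94_gt.h28

open Pool.Agent.H.MP_ce2c94_gt.h46 D3 Pool.MP_ce2c94_gt.D3W Pool.MP_ce2c94_gt.D3E

/-- multiplier 1 -/
def gD1 : Base :=
  ⟨17, 9, 2, 1, 1, 16, [0x1ffe8ffef7ff33ff61ff78ff977f62c00e5c2c54427,
  0x1ffe0ffea7ff13ff5dff8cffad7fc43fd41fe2eff87,
  0x1ffeefff57ff93ffbdffd6ffe77ff13ff79ffb8ffed]⟩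

/-- multiplier 2 -/
def gD2 : Base :=
  ⟨16, 13, 3, 1, 1, 16, [0x7ffc7ffb7ffa7ff87ff57fef7fe17fbd7f637ead7d6b7d607c25a31d,
  0x7ffa7ff87ff67ff27fee7fe87fe17fd77fc57f9e7f4a7eaf7de67ebf,
  0x7ffc7ffb7ffa7ff87ff77ff47ff17fee7fea7fe57fe17fdd7fd97fec,
  0x7ffe7ffd7ffd7ffc7ffb7ffb7ffa7ff97ff87ff77ff67ff57ff47ffa]⟩

/-- multiplier 3 -/
def gD3 : Base :=
  ⟨17, 11, 4, 1, 1, 16, [0x7ffebfff1fff4fff67ff83ff9dff8cfff17eccc22397dc55003,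
  0x7ffd3ffddffe8ffee7ff33ff61ff84ff9a7fa83fafdfb68fe76,
  0x7ffd3ffddffe8fff07ff5bff8dffb2ffcb7fdd3fe9dff2cffc8,
  0x7ffdbffe9fff0fff67ffa3ffc5ffdcffeb7ff43ff95ffc6fff1,
  0x7ffebfff5fff8fffb7ffd3ffe9fff2fff87ffbbffddffecfffb]⟩

/-- multiplier 4 -/
def gD4 : Base :=
  ⟨17, 13, 4, 1, 1, 16, [0x200010000800040001fffeffff7ffebffe1ffb900447f8cc2c8970b14233,
  0x1fffeffff7fff3fff9fffafffc7ffd3ffd9ffdeffe67ff4bff3dfce2fe73,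
  0x20000ffff7fffbfffdfffcfffe7ffebfff1fff4fff97ffb3ffd9fff0fffd,
  0x20001000080003fffdfffeffff7fffbfffdfffcfffe7fff3fff5fffafffe,
  0x20001000080004000200010000800040001fffeffff7fffbfffdffff0000]⟩

/-- the data of the program -/
def ED : EP where
  bP := DD.cP
  bQ := DD.cQ
  bZ := DD.cZ
  bc := cosT
  bs := sinT
  g1 := gD1
  g2 := gD2
  g3 := gD3
  g4 := gD4
  N := 3
  S0 := 3
  cn := 5
  cd := 0
  tP := 22
  tQ := 22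
  tZ := 22
  u := 40
  I := 110
  J := 30
  IQ := 110
  JQ := 30
  IR := 110
  JR := 30

/-- the requested bounds -/
def OD : ON :=
  ⟨1175, 2854, 570, 184, 722, 349, 538, 2039, 264, 423, 219, 667, 618, 22, 19, 26, 17⟩

/-- the bounds of the direction -/
def VD : VN :=
  ⟨3673, 38470, 8044, 2528, 19743, 8086, 3656, 39103, 5819⟩

theorem checkD : check 112 441 16 220 60 10 ED.bases ED.prog OD.outs = true := by
  decide +kernel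

theorem checkVD : check 80 193 14 96 34 11 [DD.vP, DD.vQ, DD.vZ] progV VD.outs = true := by
  decide +kernel

/-- all the surfaces near the tables are embedded -/
theorem nearD {H : Hat W} (hn : Near H (tabHat DD.cP DD.cQ DD.cZ) (1 / 2 ^ 18)) :
    Pos4 H 3 3 5 := by
  have h := pos4 ED OD (by norm_num) checkD rfl rfl ⟨rfl, rfl⟩ ⟨rfl, rfl⟩ ⟨rfl, rfl⟩ ⟨rfl, rfl⟩
    (δ := 1 / 2 ^ 18)
    (by norm_num [ON.bd, OD, Bd.cosq, Bd.rho, pm, pa, ps, pt])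
    (by norm_num [ON.bd, OD, ED, Bd.cosq, Bd.rho, pm, pa, ps, pt])
    (by norm_num [ON.bd, OD, ED, Bd.ang, Bd.a1, Bd.a2, pm, pa, ps, pt])
    (by norm_num [ON.bd, OD, ED, Bd.jac, Bd.rho, Bd.n1, Bd.n2, Bd.n3, Bd.a1, Bd.a2, Bd.a3,
      pm, pa, ps, pt]) (H := H) hn
  simpa [ED] using h

theorem vbD : VB (tabHat DD.vP DD.vQ DD.vZ) VD :=
  vb_of_check VD (by norm_num) checkVD

/-- FINAL: positivity for the perturbed surfaces. -/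
theorem posD {P : Prm} (hP : P.Ok) {y : W} {ρ : ℝ} (hy : ‖y‖ ≤ ρ)
    (hs : Sm VD (P.d0 * ρ) (P.d1 * ρ) (P.d2 * ρ) (1 / 2 ^ 18)) :
    Pos 3 3 5 ((tabHat DD.cP DD.cQ DD.cZ).pert (tabHat DD.vP DD.vQ DD.vZ) (phiP P y)) := by
  obtain ⟨b0, b1, b2⟩ := phiP_bounds hP hy
  obtain ⟨p1, p2, p3, p4⟩ := nearD (near_pert vbD b0 b1 b2 hs)
  exact ⟨by norm_num, p1, p2, p3, p4⟩

end Pool.MP_ce2c94_gt.h28
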