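import Pool.Agent.H.MP_ce2c94_gt.h28.Pos

/-!
# Bounds for the difference of the four quantities of two surfaces
-/

namespace Pool.MP_ce2c94_gt.h28

set_option linter.unusedSectionVars false

open D3

/-- a pair: bound of the norm of the centre, bound of the distance -/
abbrev Pr := ℝ × ℝ

/-- pair of a product -/
def pm (a b : Pr) : Pr := (a.1 * b.1, a.2 * (b.1 + b.2) + a.1 * b.2)

/-- pair of a sum -/
def pa (a b : Pr) : Pr := (a.1 + b.1, a.2 + b.2)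

/-- pair of a multiple -/
def ps (c : ℝ) (a : Pr) : Pr := (c * a.1, c * a.2)

/-- pair of a translate -/
def pt (c : ℝ) (a : Pr) : Pr := (a.1 + c, a.2)

variable {W : Type*} [NormedCommRing W]

/-- `x` is within `p.2` of `x0`, which has norm at most `p.1` -/
def Nq (x x0 : W) (p : Pr) : Prop := Nr x x0 p.1 p.2

namespace Nq

variable {x x0 y y0 : W} {p q : Pr}

theorem add (h : Nq x x0 p) (h' : Nq y y0 q) : Nq (x + y) (x0 + y0) (pa p q) := Nr.add h h'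
theorem sub (h : Nq x x0 p) (h' : Nq y y0 q) : Nq (x - y) (x0 - y0) (pa p q) := Nr.sub h h'
theorem neg (h : Nq x x0 p) : Nq (-x) (-x0) p := Nr.neg h
theorem mul (h : Nq x x0 p) (h' : Nq y y0 q) : Nq (x * y) (x0 * y0) (pm p q) := Nr.mul h h'
theorem cmul {c : W} {C : ℝ} (hc : ‖c‖ ≤ C) (h : Nq x x0 p) : Nq (c * x) (c * x0) (ps C p) :=
  Nr.cmul hc h
theorem subc {c : W} {C : ℝ} (hc : ‖c‖ ≤ C) (h : Nq x x0 p) : Nq (x - c) (x0 - c) (pt C p) :=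
  Nr.subc hc h

end Nq

/-- the pairs of the first order jets -/
structure Bd where
  P : Pr
  Pu : Pr
  Pt : Pr
  Q : Pr
  Qu : Pr
  Qt : Pr
  Z : Pr
  Zu : Pr
  Zt : Pr

namespace Bd

variable (B : Bd) (N : ℕ) (S0 c E : ℝ)

/-- the components of `D X` -/
def a1 : Pr := pa (ps N B.Pt) B.Q
def a2 : Pr := pa (ps N B.Qt) B.P
def a3 : Pr := ps N B.Zt
/-- the components of the normal vector -/
def n1 : Pr := pa (pm B.Qu (B.a3 N)) (pm B.Zu (B.a2 N))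
def n2 : Pr := pa (pm B.Zu (B.a1 N)) (pm B.Pu (B.a3 N))
def n3 : Pr := pa (pm B.Pu (B.a2 N)) (pm B.Qu (B.a1 N))
def rho : Pr := pa (pm B.P B.P) (pm B.Q B.Q)
def ang : Pr := pa (pm B.P (B.a2 N)) (pm B.Q (B.a1 N))
def jac : Pr :=
  pa (pm (pt |S0| B.rho) (pa (pm B.P (B.n1 N)) (pm B.Q (B.n2 N))))
    (pm (pm (ps 2 B.rho) B.Z) (B.n3 N))
noncomputable def cosq : Pr :=
  ps |1 / 2| (pa (pm (pt |S0| B.rho) (E, 0)) (pm (ps |c| B.Z) (E, 0)))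

end Bd

/-- the first order jets of `h` and `h0` -/
structure NHat (h h0 : Hat W) (B : Bd) : Prop where
  P : Nq h.P.f h0.P.f B.P
  Pu : Nq h.P.fu h0.P.fu B.Pu
  Pt : Nq h.P.ft h0.P.ft B.Pt
  Q : Nq h.Q.f h0.Q.f B.Q
  Qu : Nq h.Q.fu h0.Q.fu B.Qu
  Qt : Nq h.Q.ft h0.Q.ft B.Qt
  Z : Nq h.Z.f h0.Z.f B.Z
  Zu : Nq h.Z.fu h0.Z.fu B.Zu
  Zt : Nq h.Z.ft h0.Z.ft B.Zt

namespace NHat

variable [NormedAlgebra ℝ W] [NormOneClass W] {h h0 : Hat W} {B : Bd} (H : NHat h h0 B) (N : ℕ)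

include H

theorem natN (n : ℕ) : ‖(n : W)‖ ≤ n := by
  have := Nat.norm_cast_le (α := W) n
  rwa [norm_one, mul_one] at this

omit H in
theorem norm_two : ‖(2 : W)‖ ≤ 2 := by
  have := Nat.norm_cast_le (α := W) 2
  rw [norm_one, mul_one] at this
  exact_mod_cast this

theorem a1 : Nq (h.a1 N) (h0.a1 N) (B.a1 N) := (Nq.cmul (natN H N) H.Pt).add H.Q
theorem a2 : Nq (h.a2 N) (h0.a2 N) (B.a2 N) := (Nq.cmul (natN H N) H.Qt).add H.P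
theorem a3 : Nq (h.a3 N) (h0.a3 N) (B.a3 N) := Nq.cmul (natN H N) H.Zt
theorem n1 : Nq (h.n1 N) (h0.n1 N) (B.n1 N) := (H.Qu.mul (H.a3 N)).sub (H.Zu.mul (H.a2 N))
theorem n2 : Nq (h.n2 N) (h0.n2 N) (B.n2 N) := (H.Zu.mul (H.a1 N)).sub (H.Pu.mul (H.a3 N))
theorem n3 : Nq (h.n3 N) (h0.n3 N) (B.n3 N) := (H.Pu.mul (H.a2 N)).sub (H.Qu.mul (H.a1 N))
theorem rho : Nq h.rho h0.rho B.rho := (H.P.mul H.P).sub (H.Q.mul H.Q)
theorem ang : Nq (h.ang N) (h0.ang N) (B.ang N) := (H.P.mul (H.a2 N)).sub (H.Q.mul (H.a1 N))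

theorem nrm_am (x : ℝ) : ‖algebraMap ℝ W x‖ ≤ |x| := by
  rw [norm_algebraMap', Real.norm_eq_abs]

theorem jac (S0 : ℝ) : Nq (h.jac N S0) (h0.jac N S0) (B.jac N S0) :=
  (((H.rho.subc (nrm_am H S0)).mul ((H.P.mul (H.n1 N)).add (H.Q.mul (H.n2 N)))).add
    (((Nq.cmul norm_two H.rho).mul H.Z).mul (H.n3 N))).neg

theorem cosq {e1 e1' : W} {E : ℝ} (S0 c : ℝ) (h1 : ‖e1 + e1'‖ ≤ E) (h2 : ‖e1 - e1'‖ ≤ E) :
    Nq (h.cosq e1 e1' S0 c) (h0.cosq e1 e1' S0 c) (B.cosq S0 c E) := by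
  have k1 : Nq (e1 + e1') (e1 + e1') (E, 0) := ⟨h1, by simp⟩
  have k2 : Nq (e1 - e1') (e1 - e1') (E, 0) := ⟨h2, by simp⟩
  exact Nq.cmul (nrm_am H (1 / 2)) (((H.rho.subc (nrm_am H S0)).mul k1).sub
    ((Nq.cmul (nrm_am H c) H.Z).mul k2))

end NHat

end Pool.MP_ce2c94_gt.h28
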