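import Pool.Agent.H.MP_ce2c94_gt.D3Bri
import Pool.Agent.H.MP_ce2c94_gt.h42.Wien4

/-!
# Positivity from a norm certificate, and the Lipschitz bounds of the four quantities of `D3Bri`
-/

namespace Pool.MP_ce2c94_gt.h28

open D3W

/-- `‖1 - f₀ g g‖ ≤ r` with a real valued `g` gives `Re f > 0` for all `f` near `f₀`. -/
theorem pos_of_cert {f f0 g : W} {r η G : ℝ} (hg : D3W.Par 1 1 g) (h1 : ‖1 - f0 * (g * g)‖ ≤ r)
    (h2 : ‖f - f0‖ ≤ η) (h3 : ‖g‖ ≤ G) (h4 : r + η * (G * G) < 1) (u t : ℝ) :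
    0 < (D3W.ev u t f).re := by
  have e1 : 1 - f * (g * g) = (1 - f0 * (g * g)) - (f - f0) * (g * g) := by ring
  have hG : 0 ≤ G := (norm_nonneg g).trans h3
  have hη : 0 ≤ η := (norm_nonneg _).trans h2
  have h5 : ‖1 - f * (g * g)‖ < 1 := by
    rw [e1]
    refine lt_of_le_of_lt ((norm_sub_le _ _).trans (add_le_add h1 ?_)) h4
    refine (norm_mul_le _ _).trans (mul_le_mul h2 ?_ (norm_nonneg _) hη)
    exact (norm_mul_le _ _).trans (mul_le_mul h3 h3 (norm_nonneg _) hG)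
  have h6 : ‖D3W.ev u t (1 - f * (g * g))‖ < 1 := lt_of_le_of_lt (norm_ev_le u t _) h5
  rw [map_sub, map_one, map_mul, map_mul] at h6
  have h7 := hg.ev_eq_re (by norm_num) u t
  set x : ℝ := (D3W.ev u t g).re with hx
  rw [h7] at h6
  have h8 : |(1 - D3W.ev u t f * ((x : ℂ) * (x : ℂ))).re| < 1 :=
    lt_of_le_of_lt (Complex.abs_re_le_norm _) h6
  have e2 : (1 - D3W.ev u t f * ((x : ℂ) * (x : ℂ))).re = 1 - (D3W.ev u t f).re * (x * x) := by
    rw [← Complex.ofReal_mul, Complex.sub_re, Complex.one_re, Complex.re_mul_ofReal]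
  rw [e2, abs_lt] at h8
  have h9 : 0 < (D3W.ev u t f).re * (x * x) := by linarith [h8.2]
  by_contra h
  push Not at h
  have : (D3W.ev u t f).re * (x * x) ≤ 0 := mul_nonpos_of_nonpos_of_nonneg h (mul_self_nonneg x)
  linarith

/-! ### nearness -/

variable {W : Type*} [NormedCommRing W]

/-- `x` is within `ε` of `x0`, which has norm at most `M` -/
structure Nr (x x0 : W) (M ε : ℝ) : Prop where
  m : ‖x0‖ ≤ M
  d : ‖x - x0‖ ≤ ε

namespace Nr

variable {x x0 y y0 : W} {M ε M' ε' : ℝ}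

theorem hM (h : Nr x x0 M ε) : 0 ≤ M := (norm_nonneg _).trans h.m
theorem hε (h : Nr x x0 M ε) : 0 ≤ ε := (norm_nonneg _).trans h.d

theorem add (h : Nr x x0 M ε) (h' : Nr y y0 M' ε') : Nr (x + y) (x0 + y0) (M + M') (ε + ε') := by
  refine ⟨(norm_add_le _ _).trans (add_le_add h.m h'.m), ?_⟩
  rw [show x + y - (x0 + y0) = (x - x0) + (y - y0) by abel]
  exact (norm_add_le _ _).trans (add_le_add h.d h'.d)

theorem neg (h : Nr x x0 M ε) : Nr (-x) (-x0) M ε := by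
  refine ⟨by rw [norm_neg]; exact h.m, ?_⟩
  rw [show -x - -x0 = -(x - x0) by abel, norm_neg]
  exact h.d

theorem sub (h : Nr x x0 M ε) (h' : Nr y y0 M' ε') : Nr (x - y) (x0 - y0) (M + M') (ε + ε') := by
  rw [sub_eq_add_neg, sub_eq_add_neg]
  exact h.add h'.neg

theorem mul (h : Nr x x0 M ε) (h' : Nr y y0 M' ε') :
    Nr (x * y) (x0 * y0) (M * M') (ε * (M' + ε') + M * ε') := by
  refine ⟨(norm_mul_le _ _).trans (mul_le_mul h.m h'.m (norm_nonneg _) h.hM), ?_⟩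
  rw [show x * y - x0 * y0 = (x - x0) * y + x0 * (y - y0) by ring]
  have hy : ‖y‖ ≤ M' + ε' := by
    rw [show y = y0 + (y - y0) by abel]
    exact (norm_add_le _ _).trans (add_le_add h'.m h'.d)
  refine (norm_add_le _ _).trans (add_le_add ?_ ?_)
  · exact (norm_mul_le _ _).trans (mul_le_mul h.d hy (norm_nonneg _) h.hε)
  · exact (norm_mul_le _ _).trans (mul_le_mul h.m h'.d (norm_nonneg _) h.hM)

/-- multiplication by a fixed element -/
theorem cmul {c : W} {C : ℝ} (hc : ‖c‖ ≤ C) (h : Nr x x0 M ε) :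
    Nr (c * x) (c * x0) (C * M) (C * ε) := by
  have hC : 0 ≤ C := (norm_nonneg _).trans hc
  refine ⟨(norm_mul_le _ _).trans (mul_le_mul hc h.m (norm_nonneg _) hC), ?_⟩
  rw [← mul_sub]
  exact (norm_mul_le _ _).trans (mul_le_mul hc h.d (norm_nonneg _) hC)

/-- addition of a fixed element -/
theorem subc {c : W} {C : ℝ} (hc : ‖c‖ ≤ C) (h : Nr x x0 M ε) : Nr (x - c) (x0 - c) (M + C) ε := by
  refine ⟨(norm_sub_le _ _).trans (add_le_add h.m hc), ?_⟩
  rw [show x - c - (x0 - c) = x - x0 by abel]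
  exact h.d

theorem mono (h : Nr x x0 M ε) (h1 : M ≤ M') (h2 : ε ≤ ε') : Nr x x0 M' ε' :=
  ⟨h.m.trans h1, h.d.trans h2⟩

end Nr

end Pool.MP_ce2c94_gt.h28
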